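import Pool.Agent.MHP.StmtsS

/-!
# Squad MHP (MP_09e7c7_co): row SPS
-/

set_option autoImplicit false

namespace Pool.Agent.MHP.H66

open Pool.Agent.HMT

/-- a graph with an injective homomorphism to a sparse graph is sparse -/
theorem spr_hom {g : ℕ} {V W : Type} [Finite V] [Finite W] {D : SimpleGraph V}
    {G : SimpleGraph W} (f : D →g G) (hf : Function.Injective f) (h : Spr g G) : Spr g D := by
  rcases h with h | ⟨hc, hs⟩
  · exact Or.inl h
  · right
    refine ⟨hc.of_hom f, fun X hX => ?_⟩
    have h1 := hs (f '' X) (hX.image f)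
    rw [Nat.card_image_of_injective hf] at h1
    let φ : D.induce X →g G.induce (f '' X) :=
      ⟨fun v => ⟨f v.1, v.1, v.2, rfl⟩, fun {_ _} hab => f.map_adj hab⟩
    have hφ : Function.Injective φ := by
      intro a b hab
      exact Subtype.ext (hf (congrArg Subtype.val hab))
    have h2 : Nat.card (D.induce X).edgeSet ≤ Nat.card (G.induce (f '' X)).edgeSet :=
      Nat.card_le_card_of_injective (SimpleGraph.Hom.mapEdgeSet φ)
        (SimpleGraph.Hom.mapEdgeSet.injective φ hφ)
    exact (Nat.mul_le_mul_left g h2).trans h1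

/-- **row SPS** -/
theorem sps : SpsStmt := by
  refine ⟨?_, ?_, ?_⟩
  · intro g V _ G D hle h
    exact spr_hom (SimpleGraph.Hom.ofLE hle) Function.injective_id h
  · intro g V _ G B h
    exact spr_hom (SimpleGraph.Embedding.induce (G := G) B).toHom Subtype.val_injective h
  · rintro g V W _ _ G H ⟨e⟩ h
    exact spr_hom e.symm.toHom e.symm.injective h

end Pool.Agent.MHP.H66
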